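import Pool.Agent.H268R3.Soc.Tab

/-!
# Graded socle multiplicities of `L(μ) ⊗ Det^k` in the symmetric algebra over `GL_n(q)`

The theorem `result` at the end of this file answers Q1 of MP_ff8c2f_al positively, for all
primes `p`, all `q = p ^ r`, all `n ≥ 1`, all partitions `μ` of size at most `p - 1` and all `k`
with `k ≤ q - 2 - μ_1`.
-/

set_option autoImplicit false

open MvPolynomial Finset

namespace Pool.Agent.Results.MP_ff8c2f_al.GradedSocle

section defs

variable (F : Type) [Field F] (n : ℕ)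

/-- The action of a matrix `g` on `S(V) = F[X_0, …, X_{n-1}]` by the graded algebra map
`X_j ↦ ∑ i, g_{ij} X_i` (so that `X_j` is the `j`-th basis vector of the natural module `V`). -/
noncomputable def symAct (g : Matrix (Fin n) (Fin n) F) :
    MvPolynomial (Fin n) F →ₐ[F] MvPolynomial (Fin n) F :=
  aeval (fun j => ∑ i, C (g i j) * X i)

lemma symAct_mem (g : Matrix (Fin n) (Fin n) F) (m : ℕ) :
    ∀ f ∈ homogeneousSubmodule (Fin n) F m,
      (symAct F n g).toLinearMap f ∈ homogeneousSubmodule (Fin n) F m :=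
  fun f hf => H268R3.Soc.act_isHomogeneous g f m hf

/-- The restriction of `symAct g` to `S^m(V)`. -/
noncomputable def symOp (m : ℕ) (g : GL (Fin n) F) :
    Module.End F (homogeneousSubmodule (Fin n) F m) :=
  (symAct F n g.val).toLinearMap.restrict (symAct_mem F n g.val m)

lemma symOp_one (m : ℕ) : symOp F n m 1 = 1 := by
  ext f : 2
  exact H268R3.Soc.act_one f.val

lemma symOp_mul (m : ℕ) (g h : GL (Fin n) F) :
    symOp F n m (g * h) = symOp F n m g * symOp F n m h := by
  ext f : 2
  exact H268R3.Soc.act_mul g.val h.val f.val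

/-- `S^m(V)` as a representation of `GL_n(F)`. -/
noncomputable def symRep (m : ℕ) :
    Representation F (GL (Fin n) F) (homogeneousSubmodule (Fin n) F m) where
  toFun := symOp F n m
  map_one' := symOp_one F n m
  map_mul' := symOp_mul F n m

/-- The action of a matrix `g` on the polynomial ring in the entries `Z_{a,j}` (`a ∈ ℕ`,
`j < n`), that is on `S(F^(ℕ) ⊗ V)`, by the algebra map `Z_{a,j} ↦ ∑ i, g_{ij} Z_{a,i}`. -/
noncomputable def matAct (g : Matrix (Fin n) (Fin n) F) :
    MvPolynomial (ℕ × Fin n) F →ₐ[F] MvPolynomial (ℕ × Fin n) F :=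
  aeval (fun x => ∑ i, C (g i x.2) * X (x.1, i))

/-- The minor `det (Z_{a, κ(b)})`, `a, b < l`. -/
noncomputable def mnr (l : ℕ) (κ : ℕ → Fin n) : MvPolynomial (ℕ × Fin n) F :=
  Matrix.det (Matrix.of fun a b : Fin l => X (a.val, κ b.val))

/-- The bideterminant of a filling `T` of the diagram `μ` : the product over the columns `j` of
`μ` of the minors `det (Z_{a, T(b,j)})`, `a, b < μ'_j`. -/
noncomputable def bidet (μ : YoungDiagram) (T : ℕ → ℕ → Fin n) : MvPolynomial (ℕ × Fin n) F :=
  ∏ j ∈ range (μ.rowLen 0), mnr F n (μ.colLen j) (fun b => T b j)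

/-- The Schur functor of `μ` applied to `V = F^n` : the span of all bideterminants of shape `μ`,
which is the image of the natural map from the tensor product of the exterior powers
`Λ^{μ'_j}(V)` to the tensor product of the symmetric powers `S^{μ_i}(V)`. -/
noncomputable def schurModule (μ : YoungDiagram) : Submodule F (MvPolynomial (ℕ × Fin n) F) :=
  Submodule.span F (Set.range (bidet F n μ))

lemma matAct_mem (μ : YoungDiagram) (g : Matrix (Fin n) (Fin n) F) :
    ∀ f ∈ schurModule F n μ, (matAct F n g).toLinearMap f ∈ schurModule F n μ := by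
  intro f hf
  have h1 : schurModule F n μ ≤ (schurModule F n μ).comap (matAct F n g).toLinearMap := by
    conv_lhs => rw [schurModule]
    rw [Submodule.span_le]
    rintro _ ⟨T, rfl⟩
    show H268R3.Soc.actZ g (H268R3.Soc.bdet F (μ.rowLen 0) μ.colLen T) ∈ schurModule F n μ
    unfold H268R3.Soc.bdet
    rw [map_prod]
    exact H268R3.Soc.prod_mem_span _ _ T _ (fun j _ => H268R3.Soc.actZ_cdet_mem g _ _)
  exact h1 hf

/-- The action of `g` on `L(μ) ⊗ Det^k` : `det(g)^k` times the restriction of `matAct g`. -/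
noncomputable def schurOp (μ : YoungDiagram) (k : ℕ) (g : GL (Fin n) F) :
    Module.End F (schurModule F n μ) :=
  (g.val.det ^ k) • (matAct F n g.val).toLinearMap.restrict (matAct_mem F n μ g.val)

lemma schurOp_one (μ : YoungDiagram) (k : ℕ) : schurOp F n μ k 1 = 1 := by
  ext f : 2
  show (1 : Matrix (Fin n) (Fin n) F).det ^ k • matAct F n 1 f.val = f.val
  rw [Matrix.det_one, one_pow, one_smul]
  exact H268R3.Soc.actZ_one_apply f.val

lemma schurOp_mul (μ : YoungDiagram) (k : ℕ) (g h : GL (Fin n) F) :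
    schurOp F n μ k (g * h) = schurOp F n μ k g * schurOp F n μ k h := by
  ext f : 2
  show (g.val * h.val).det ^ k • matAct F n (g.val * h.val) f.val
    = g.val.det ^ k • matAct F n g.val (h.val.det ^ k • matAct F n h.val f.val)
  rw [map_smul, smul_smul, Matrix.det_mul, mul_pow]
  congr 1
  exact H268R3.Soc.actZ_mul_apply g.val h.val f.val

/-- `L(μ) ⊗ Det^k` as a representation of `GL_n(F)` : the space `L(μ) = schurModule F n μ`, on
which `g` acts by `det(g)^k` times the natural action of `g`. -/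
noncomputable def schurDetRep (μ : YoungDiagram) (k : ℕ) :
    Representation F (GL (Fin n) F) (schurModule F n μ) where
  toFun := schurOp F n μ k
  map_one' := schurOp_one F n μ k
  map_mul' := schurOp_mul F n μ k

/-- The multiplicity `dim Hom_G(L(μ) ⊗ Det^k, S^m(V))`. -/
noncomputable def homDim (μ : YoungDiagram) (k m : ℕ) : ℕ :=
  Module.finrank F (Representation.IntertwiningMap (schurDetRep F n μ k) (symRep F n m))

/-- The graded socle multiplicity of `L(μ) ⊗ Det^k` in `S(V)` :
`∑_m dim Hom_G(L(μ) ⊗ Det^k, S^m(V)) t^m`. -/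
noncomputable def socleSeries (μ : YoungDiagram) (k : ℕ) : PowerSeries ℤ :=
  PowerSeries.mk fun m => (homDim F n μ k m : ℤ)

end defs

/-- Semistandard Young tableaux of shape `μ` with entries in `{0, …, n-1}`. -/
abbrev Tableaux (n : ℕ) (μ : YoungDiagram) : Type :=
  {T : SemistandardYoungTableau μ // ∀ i j, (i, j) ∈ μ → T i j < n}

/-- The Schur polynomial `s_μ(x_0, …, x_{n-1})` : the sum over semistandard tableaux of shape `μ`
of the product of the variables indexed by the entries. -/
noncomputable def schurPoly (n : ℕ) (μ : YoungDiagram) : MvPolynomial (Fin n) ℤ :=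
  ∑ T : Tableaux n μ, ∏ c : μ.cells,
    X (⟨T.1 c.1.1 c.1.2, T.2 _ _ ((YoungDiagram.mem_cells _).1 c.2)⟩ : Fin n)

/-- `s_μ(t, t^q, …, t^{q^{n-1}})`. -/
noncomputable def schurSpec (q n : ℕ) (μ : YoungDiagram) : PowerSeries ℤ :=
  aeval (fun i : Fin n => (PowerSeries.X : PowerSeries ℤ) ^ (q ^ i.val)) (schurPoly n μ)

/-- `∏_{i<n} (1 - t^{q^n - q^i})`. -/
noncomputable def dicksonDen (q n : ℕ) : PowerSeries ℤ :=
  ∏ i ∈ range n, (1 - PowerSeries.X ^ (q ^ n - q ^ i))

section link

open H268R3.Soc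

variable {F : Type} [Field F] {n : ℕ} (hn : 0 < n) (μ : YoungDiagram)
  (hu : IsUnit ((Nat.factorial (∑ j ∈ range (μ.rowLen 0), μ.colLen j) : ℕ) : F))

lemma bidet_mem (T : ℕ → ℕ → Fin n) : bidet F n μ T ∈ schurModule F n μ :=
  Submodule.subset_span ⟨T, rfl⟩

/-- the tableau basis vectors -/
noncomputable def bv (t : SSYT n μ) : schurModule F n μ := ⟨bidet F n μ (fil hn μ t), bidet_mem μ _⟩

lemma bv_li : LinearIndependent F (bv (F := F) hn μ) := by
  have h1 := bdet_linearIndependent (A := F) (μ.rowLen 0) μ.colLen (tsys hn μ).T (tsys hn μ).ss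
    (tsys hn μ).inj
  exact LinearIndependent.of_comp (schurModule F n μ).subtype h1

include hu in
lemma exists_bv (x : schurModule F n μ) : ∃ r : SSYT n μ → F, x = ∑ s, r s • bv hn μ s := by
  have h1 : x.val ∈ ssSpan F n (μ.rowLen 0) μ.colLen := by
    have h2 : schurModule F n μ ≤ ssSpan F n (μ.rowLen 0) μ.colLen := by
      unfold schurModule
      rw [Submodule.span_le]
      rintro _ ⟨T, rfl⟩
      exact bdet_mem_ssSpan _ _ (tsys hn μ).anti hu T
    exact h2 x.2
  obtain ⟨r, hr⟩ := exists_coords (tsys hn μ) F x.val h1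
  refine ⟨r, ?_⟩
  apply Subtype.ext
  rw [hr]
  rw [AddSubmonoidClass.coe_finset_sum]
  rfl

include hu in
lemma bv_span : ⊤ ≤ Submodule.span F (Set.range (bv (F := F) hn μ)) := by
  intro x _
  obtain ⟨r, hr⟩ := exists_bv hn μ hu x
  rw [hr]
  exact Submodule.sum_mem _ (fun s _ => Submodule.smul_mem _ _ (Submodule.subset_span ⟨s, rfl⟩))

/-- the tableau basis -/
noncomputable def tbasis : Module.Basis (SSYT n μ) F (schurModule F n μ) :=
  Module.Basis.mk (bv_li hn μ) (bv_span hn μ hu)

lemma tbasis_apply (t : SSYT n μ) : tbasis hn μ hu t = bv hn μ t := by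
  unfold tbasis
  exact Module.Basis.mk_apply _ _ t

lemma rep_bv (k : ℕ) (g : GL (Fin n) F) (t : SSYT n μ) :
    schurDetRep F n μ k g (bv hn μ t)
      = g.val.det ^ k • ∑ s, (prep hn μ hu).R g.val s t • bv hn μ s := by
  apply Subtype.ext
  show g.val.det ^ k • matAct F n g.val (bidet F n μ (fil hn μ t)) = _
  rw [Submodule.coe_smul, AddSubmonoidClass.coe_finset_sum]
  congr 1
  exact Rm_spec (tsys hn μ) hu g.val t

variable [Fintype F]

/-- intertwining maps are covariants -/
noncomputable def theta (k m : ℕ) :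
    Representation.IntertwiningMap (schurDetRep F n μ k) (symRep F n m) →ₗ[F]
      CovS (prep hn μ hu) k m where
  toFun f := ⟨fun t => (f (bv hn μ t)).val, by
    refine ⟨fun t => (f (bv hn μ t)).2, ?_⟩
    intro g hg t
    have h1 := f.isIntertwining _ _ (Matrix.GeneralLinearGroup.mk'' g hg) (bv hn μ t)
    rw [rep_bv hn μ hu] at h1
    have h2 := congrArg Subtype.val h1
    have h3 : ((symRep F n m (Matrix.GeneralLinearGroup.mk'' g hg)) (f (bv hn μ t))).val
        = act g (f (bv hn μ t)).val := rfl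
    rw [h3] at h2
    rw [← h2, map_smul, map_sum, Submodule.coe_smul, AddSubmonoidClass.coe_finset_sum, smul_eq_C_mul]
    congr 1
    apply sum_congr rfl
    intro s _
    rw [map_smul, Submodule.coe_smul, smul_eq_C_mul, mul_comm]
    rfl⟩
  map_add' f f' := rfl
  map_smul' a f := rfl

lemma theta_injective (k m : ℕ) : Function.Injective (theta hn μ hu k m) := by
  intro f f' h
  apply Representation.IntertwiningMap.ext
  apply (tbasis hn μ hu).ext
  intro t
  rw [tbasis_apply]
  apply Subtype.ext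
  exact congrFun (congrArg Subtype.val h) t

lemma theta_surjective (k m : ℕ) : Function.Surjective (theta hn μ hu k m) := by
  rintro ⟨c, hc1, hc2⟩
  let f : schurModule F n μ →ₗ[F] homogeneousSubmodule (Fin n) F m :=
    (tbasis hn μ hu).constr F (fun t => ⟨c t, hc1 t⟩)
  have hf : ∀ t, f (bv hn μ t) = ⟨c t, hc1 t⟩ := by
    intro t
    rw [← tbasis_apply hn μ hu t]
    exact (tbasis hn μ hu).constr_basis F _ t
  refine ⟨⟨f, ?_⟩, ?_⟩
  · intro g
    apply (tbasis hn μ hu).ext
    intro t
    rw [tbasis_apply, LinearMap.comp_apply, LinearMap.comp_apply, rep_bv hn μ hu, hf, map_smul, map_sum]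
    apply Subtype.ext
    have hg : IsUnit g.val.det := (Matrix.isUnit_iff_isUnit_det _).1 g.isUnit
    have h3 : ((symRep F n m g) ⟨c t, hc1 t⟩).val = act g.val (c t) := rfl
    rw [h3, hc2 g.val hg t, Submodule.coe_smul, AddSubmonoidClass.coe_finset_sum, smul_eq_C_mul]
    congr 1
    apply sum_congr rfl
    intro s _
    rw [map_smul, hf, Submodule.coe_smul, smul_eq_C_mul, mul_comm]
  · apply Subtype.ext
    ext t : 1
    show (f (bv hn μ t)).val = c t
    rw [hf]

end link

/-- **Answer to Q1.**  Let `F` be the field with `q = p ^ r` elements, `n ≥ 1`, `μ` a partition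
with at most `n` parts and with `1 ≤ |μ| ≤ p - 1`, and `0 ≤ k ≤ q - 2 - μ_1`.  Then the graded
socle multiplicity of `L(μ) ⊗ Det^k` in `S(V)`, multiplied by `∏_{i<n} (1 - t^{q^n - q^i})`, is
`t^{k (q^n - 1)/(q - 1)} s_μ(t, t^q, …, t^{q^{n-1}})`. -/
theorem result (p r q n : ℕ) [Fact p.Prime] (_hr : 1 ≤ r) (hq : q = p ^ r) (hn : 1 ≤ n)
    (F : Type) [Field F] [Fintype F] (hF : Fintype.card F = q)
    (μ : YoungDiagram) (_hμn : μ.colLen 0 ≤ n) (_hd : 1 ≤ μ.card) (hdp : μ.card ≤ p - 1)
    (k : ℕ) (hk : k + μ.rowLen 0 + 2 ≤ q) :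
    socleSeries F n μ k * dicksonDen q n
      = PowerSeries.X ^ (k * ((q ^ n - 1) / (q - 1))) * schurSpec q n μ := by
  subst hq
  have hn' : 0 < n := hn
  have hu := H268R3.Soc.fact_unit (F := F) μ p r hF hdp
  have h1 : socleSeries F n μ k = PowerSeries.X ^ (k * H268R3.Soc.delta F n) *
      (∑ s, PowerSeries.X ^ (H268R3.Soc.edeg (H268R3.Soc.prep hn' μ hu) s)) * H268R3.Soc.HS F n := by
    ext m
    rw [socleSeries, PowerSeries.coeff_mk, homDim,
      (LinearEquiv.ofBijective (theta hn' μ hu k m)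
        ⟨theta_injective hn' μ hu k m, theta_surjective hn' μ hu k m⟩).finrank_eq]
    apply H268R3.Soc.finrank_CovS (H268R3.Soc.prep hn' μ hu) ⟨0, hn'⟩ k m
    intro t
    have h2 := H268R3.Soc.wt_le (μ.rowLen 0) μ.colLen (H268R3.Soc.fil hn' μ t)
      (H268R3.Soc.fil_ss hn' μ t) ⟨0, hn'⟩
    have h3 : (H268R3.Soc.prep hn' μ hu).wt t ⟨0, hn'⟩
      = H268R3.Soc.wt (μ.rowLen 0) μ.colLen (H268R3.Soc.fil hn' μ t) ⟨0, hn'⟩ := rfl
    rw [h3, hF]
    omega
  have h2 : H268R3.Soc.delta F n = ((p ^ r) ^ n - 1) / (p ^ r - 1) := by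
    unfold H268R3.Soc.delta
    rw [Fin.sum_univ_eq_sum_range (fun i => Fintype.card F ^ i), Nat.geomSum_eq Fintype.one_lt_card, hF]
  have h3 : schurSpec (p ^ r) n μ
      = ∑ s, PowerSeries.X ^ (H268R3.Soc.edeg (H268R3.Soc.prep hn' μ hu) s) := by
    unfold schurSpec schurPoly
    rw [map_sum]
    apply sum_congr rfl
    intro t _
    rw [map_prod, H268R3.Soc.edeg_eq]
    simp only [aeval_X]
    rw [prod_pow_eq_pow_sum, hF]
    congr 1
    exact sum_coe_sort μ.cells (fun c => (p ^ r) ^ (t.1 c.1 c.2))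
  have h4 := H268R3.Soc.HS_eq F n
  rw [hF] at h4
  rw [h1, mul_assoc, dicksonDen, h4, mul_one, h2, h3]

end Pool.Agent.Results.MP_ff8c2f_al.GradedSocle
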